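import Mathlib

set_option autoImplicit false

namespace Pool.Agent.Results.MP_3efdf8_co.EvenOrders

open SimpleGraph

/-- The graph `H` has a Hamilton decomposition into two Hamilton cycles: every edge of `H` lies on
exactly one of them. -/
def HasTwoHamiltonDecomposition {W : Type} [DecidableEq W] (H : SimpleGraph W) : Prop :=
  ∃ (u v : W) (p : H.Walk u u) (q : H.Walk v v), p.IsHamiltonianCycle ∧ q.IsHamiltonianCycle ∧
    ∀ e ∈ H.edgeSet, (e ∈ p.edges ↔ e ∉ q.edges)

/-- The prism over `G`: two copies of `G`, each vertex joined to its copy. -/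
def prism {V : Type} (G : SimpleGraph V) : SimpleGraph (V × Fin 2) :=
  G.boxProd (⊤ : SimpleGraph (Fin 2))

theorem prism_adj {V : Type} (G : SimpleGraph V) (x y : V × Fin 2) :
    (prism G).Adj x y ↔ (G.Adj x.1 y.1 ∧ x.2 = y.2) ∨ (x.2 ≠ y.2 ∧ x.1 = y.1) := by
  unfold prism
  rw [SimpleGraph.boxProd_adj, SimpleGraph.top_adj]

/-- A Hamilton cycle crosses the boundary of a nonempty proper vertex set at least twice. -/
theorem two_crossings {W : Type} [DecidableEq W] {G : SimpleGraph W} {u : W} (p : G.Walk u u)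
    (hp : p.IsHamiltonianCycle) (Y : W → Prop) {a b : W} (ha : Y a) (hb : ¬ Y b) :
    ∃ e e' : Sym2 W, e ≠ e' ∧ e ∈ p.edges ∧ e' ∈ p.edges ∧
      (∃ x y, Y x ∧ ¬ Y y ∧ G.Adj x y ∧ e = s(x, y)) ∧
      (∃ x y, Y x ∧ ¬ Y y ∧ G.Adj x y ∧ e' = s(x, y)) := by
  have ha' : a ∈ p.support := hp.mem_support a
  have hcyc : (p.rotate a ha').IsCycle := hp.isCycle.rotate ha'
  have hb' : b ∈ (p.rotate a ha').support := by
    rw [Walk.mem_support_rotate_iff]; exact hp.mem_support b
  have hedges : ∀ e, e ∈ (p.rotate a ha').edges → e ∈ p.edges := fun e he =>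
    (p.rotate_edges a ha').perm.mem_iff.mp he
  generalize p.rotate a ha' = c at *
  obtain ⟨d1, hd1, h1a, h1b⟩ := (c.takeUntil b hb').exists_boundary_dart {x | Y x} ha hb
  obtain ⟨d2, hd2, h2a, h2b⟩ :=
    (c.dropUntil b hb').exists_boundary_dart {x | ¬ Y x} hb (by simpa using ha)
  have hnd : ((c.takeUntil b hb').append (c.dropUntil b hb')).edges.Nodup := by
    rw [Walk.take_spec]; exact hcyc.edges_nodup
  rw [Walk.edges_append] at hnd
  have e1 : d1.edge ∈ (c.takeUntil b hb').edges := List.mem_map_of_mem hd1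
  have e2 : d2.edge ∈ (c.dropUntil b hb').edges := List.mem_map_of_mem hd2
  have hsub1 : d1.edge ∈ c.edges := by
    rw [← Walk.take_spec c hb', Walk.edges_append]; exact List.mem_append_left _ e1
  have hsub2 : d2.edge ∈ c.edges := by
    rw [← Walk.take_spec c hb', Walk.edges_append]; exact List.mem_append_right _ e2
  refine ⟨d1.edge, d2.edge, ?_, hedges _ hsub1, hedges _ hsub2, ?_, ?_⟩
  · intro h
    exact (List.disjoint_of_nodup_append hnd) e1 (h ▸ e2)
  · exact ⟨d1.fst, d1.snd, h1a, h1b, d1.adj, rfl⟩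
  · refine ⟨d2.snd, d2.fst, by simpa using h2b, h2a, d2.adj.symm, ?_⟩
    rw [Sym2.eq_swap]; rfl

/-- Indicator of membership in an edge list. -/
def ind {W : Type} [DecidableEq W] (l : List (Sym2 W)) (e : Sym2 W) : ℕ :=
  if e ∈ l then 1 else 0

theorem sum_ge_one {W : Type} [DecidableEq W] (l : List (Sym2 W)) (L : List (Sym2 W))
    (e : Sym2 W) (he : e ∈ L) (h : e ∈ l) : 1 ≤ (L.map (ind l)).sum := by
  induction L with
  | nil => cases he
  | cons a t ih =>
    rw [List.map_cons, List.sum_cons]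
    rcases List.mem_cons.mp he with rfl | he'
    · have : ind l e = 1 := if_pos h
      omega
    · have := ih he'
      omega

theorem sum_ge_two {W : Type} [DecidableEq W] (l : List (Sym2 W)) (L : List (Sym2 W))
    (e e' : Sym2 W) (hne : e ≠ e') (he : e ∈ L) (he' : e' ∈ L) (h : e ∈ l) (h' : e' ∈ l) :
    2 ≤ (L.map (ind l)).sum := by
  induction L with
  | nil => cases he
  | cons a t ih =>
    rw [List.map_cons, List.sum_cons]
    rcases List.mem_cons.mp he with rfl | h1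
    · rcases List.mem_cons.mp he' with rfl | h2
      · exact absurd rfl hne
      · have h3 : ind l e = 1 := if_pos h
        have := sum_ge_one l t e' h2 h'
        omega
    · rcases List.mem_cons.mp he' with rfl | h2
      · have h3 : ind l e' = 1 := if_pos h'
        have := sum_ge_one l t e h1 h
        omega
      · have := ih h1 h2
        omega

theorem sum_add_sum {W : Type} [DecidableEq W] (l l' : List (Sym2 W)) (L : List (Sym2 W))
    (h : ∀ e ∈ L, (e ∈ l ↔ e ∉ l')) :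
    (L.map (ind l)).sum + (L.map (ind l')).sum = L.length := by
  induction L with
  | nil => rfl
  | cons a t ih =>
    rw [List.map_cons, List.sum_cons, List.map_cons, List.sum_cons, List.length_cons]
    have h1 := ih (fun e he => h e (List.mem_cons_of_mem _ he))
    have h2 := h a List.mem_cons_self
    have h3 : ind l a + ind l' a = 1 := by
      unfold ind
      by_cases ha : a ∈ l
      · rw [if_pos ha, if_neg (h2.mp ha)]
      · rw [if_neg ha, if_pos (by by_contra h4; exact ha (h2.mpr h4))]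
    omega

/-- The main counting fact: of the edges in the boundary of a proper nonempty vertex set, each of
the two Hamilton cycles contains at least two. -/
theorem bound {W : Type} [DecidableEq W] {G : SimpleGraph W} {u v : W} (p : G.Walk u u)
    (q : G.Walk v v) (hp : p.IsHamiltonianCycle) (hq : q.IsHamiltonianCycle)
    (hpq : ∀ e ∈ G.edgeSet, (e ∈ p.edges ↔ e ∉ q.edges))
    (Y : W → Prop) {a b : W} (ha : Y a) (hb : ¬ Y b) (L : List (Sym2 W))
    (hL : ∀ e ∈ L, e ∈ G.edgeSet)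
    (hcross : ∀ x y, Y x → ¬ Y y → G.Adj x y → s(x, y) ∈ L) :
    2 ≤ (L.map (ind p.edges)).sum ∧ (L.map (ind p.edges)).sum + 2 ≤ L.length := by
  obtain ⟨e, e', hne, he, he', ⟨x, y, hx, hy, hxy, rfl⟩, ⟨x', y', hx', hy', hxy', rfl⟩⟩ :=
    two_crossings p hp Y ha hb
  obtain ⟨f, f', hnf, hf, hf', ⟨z, t, hz, ht, hzt, rfl⟩, ⟨z', t', hz', ht', hzt', rfl⟩⟩ :=
    two_crossings q hq Y ha hb
  have h1 := sum_ge_two p.edges L _ _ hne (hcross x y hx hy hxy) (hcross x' y' hx' hy' hxy') he he'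
  have h2 := sum_ge_two q.edges L _ _ hnf (hcross z t hz ht hzt) (hcross z' t' hz' ht' hzt') hf hf'
  have h3 := sum_add_sum p.edges q.edges L (fun e he => hpq e (hL e he))
  exact ⟨h1, by omega⟩


theorem ind_le {W : Type} [DecidableEq W] (l : List (Sym2 W)) (e : Sym2 W) : ind l e ≤ 1 := by
  unfold ind
  split <;> omega

theorem arith (x0 x1 y0 y1 v0 v9 r0 r1 p0 p1 q0 q1 m : ℕ)
    (bv0 : v0 ≤ 1) (bx0 : x0 ≤ 1) (br0 : r0 ≤ 1) (br1 : r1 ≤ 1)
    (h00 : x0 + v0 + r0 + p0 = 2) (h01 : x1 + v0 + r1 + p1 = 2)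
    (h90 : y0 + v9 + r0 + q0 = 2) (h91 : y1 + v9 + r1 + q1 = 2)
    (hd1 : p0 + p1 + m = 2) (hd2 : m + q0 + q1 = 2) (hin : p0 + p1 + q0 + q1 = 2)
    (hgd : x0 + x1 + y0 + y1 = 2)
    (hs0 : 2 ≤ x1 + y1 + v0 + v9 + p0 + q0) (hs0' : x1 + y1 + v0 + v9 + p0 + q0 ≤ 4)
    (hs1 : 2 ≤ x0 + y0 + v0 + v9 + p1 + q1) (hs1' : x0 + y0 + v0 + v9 + p1 + q1 ≤ 4) :
    ¬ (x0 + x1 = 1 ∧ x0 = y0) := by
  rintro ⟨e1, e2⟩
  have hpp : p0 + p1 = 1 := by omega
  have hqq : q0 + q1 = 1 := by omega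
  clear hd1 hd2 hin
  have hv : v0 = 0 ∨ v0 = 1 := by omega
  have hx : x0 = 0 ∨ x0 = 1 := by omega
  rcases hv with rfl | rfl <;> rcases hx with rfl | rfl <;> omega

/-! ### Rings of three gadgets -/

/-- Code of the first end of the edge of type `t` of gadget `i`. Gadget `i` consists of the vertex
`a` (code `4 i`), a piece `X` (code `4 i + 1`), a piece `Y` (code `4 i + 2`) and the vertex `b`
(code `4 i + 3`). -/
def c1 (i : Fin 3) (t : Fin 5) : Fin 12 :=
  match t with
  | 0 => ⟨4 * i.val + 3, by omega⟩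
  | 1 => ⟨4 * i.val, by omega⟩
  | 2 => ⟨4 * i.val, by omega⟩
  | 3 => ⟨4 * i.val + 1, by omega⟩
  | 4 => ⟨4 * i.val + 2, by omega⟩

/-- Code of the second end of the edge of type `t` of gadget `i`. -/
def c2 (i : Fin 3) (t : Fin 5) : Fin 12 :=
  match t with
  | 0 => ⟨4 * ((i.val + 1) % 3), by omega⟩
  | 1 => ⟨4 * i.val + 3, by omega⟩
  | 2 => ⟨4 * i.val + 1, by omega⟩
  | 3 => ⟨4 * i.val + 2, by omega⟩
  | 4 => ⟨4 * i.val + 3, by omega⟩

/-- `G` is a ring of three gadgets. -/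
structure IsRing {V : Type} (G : SimpleGraph V) (code : V → Fin 12) (P Q : Fin 3 → Fin 5 → V) :
    Prop where
  hP : ∀ i t, code (P i t) = c1 i t
  hQ : ∀ i t, code (Q i t) = c2 i t
  hadj : ∀ i t, G.Adj (P i t) (Q i t)
  hinter : ∀ u v, G.Adj u v → code u ≠ code v → ∃ i t, s(u, v) = s(P i t, Q i t)
  huniq : ∀ u v, code u = code v → ((code u).val % 4 = 0 ∨ (code u).val % 4 = 3) → u = v

/-- The edges of the prism between different parts: types `0, ..., 4` in layer `l`, type `5` is the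
vertical edge at `a`, type `6` the vertical edge at `b`. -/
def E {V : Type} (P Q : Fin 3 → Fin 5 → V) (n : Fin 3 × Fin 7 × Fin 2) : Sym2 (V × Fin 2) :=
  if h : n.2.1.val < 5 then s((P n.1 ⟨n.2.1.val, h⟩, n.2.2), (Q n.1 ⟨n.2.1.val, h⟩, n.2.2))
  else if n.2.1.val = 5 then s((P n.1 1, 0), (P n.1 1, 1)) else s((P n.1 0, 0), (P n.1 0, 1))

/-- The edge named `n` joins the two sides of the cut given by `f`. -/
def cross (f : Fin 12 → Fin 2 → Bool) (n : Fin 3 × Fin 7 × Fin 2) : Bool :=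
  if h : n.2.1.val < 5 then (f (c1 n.1 ⟨n.2.1.val, h⟩) n.2.2 != f (c2 n.1 ⟨n.2.1.val, h⟩) n.2.2)
  else if n.2.1.val = 5 then (f (c1 n.1 1) 0 != f (c1 n.1 1) 1)
  else (f (c1 n.1 0) 0 != f (c1 n.1 0) 1)

variable {V : Type} {G : SimpleGraph V} {code : V → Fin 12} {P Q : Fin 3 → Fin 5 → V}

theorem E_five (P Q : Fin 3 → Fin 5 → V) (i : Fin 3) (l : Fin 2) :
    E P Q (i, 5, l) = s((P i 1, 0), (P i 1, 1)) := rfl

theorem E_six (P Q : Fin 3 → Fin 5 → V) (i : Fin 3) (l : Fin 2) :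
    E P Q (i, 6, l) = s((P i 0, 0), (P i 0, 1)) := rfl

theorem cross_five (f : Fin 12 → Fin 2 → Bool) (i : Fin 3) (l : Fin 2) :
    cross f (i, 5, l) = (f (c1 i 1) 0 != f (c1 i 1) 1) := rfl

theorem cross_six (f : Fin 12 → Fin 2 → Bool) (i : Fin 3) (l : Fin 2) :
    cross f (i, 6, l) = (f (c1 i 0) 0 != f (c1 i 0) 1) := rfl

theorem E_mem (hR : IsRing G code P Q) (n : Fin 3 × Fin 7 × Fin 2) :
    E P Q n ∈ (prism G).edgeSet := by
  unfold E
  split
  · rw [SimpleGraph.mem_edgeSet, prism_adj]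
    exact Or.inl ⟨hR.hadj _ _, rfl⟩
  · split
    · rw [SimpleGraph.mem_edgeSet, prism_adj]
      exact Or.inr ⟨by simp, rfl⟩
    · rw [SimpleGraph.mem_edgeSet, prism_adj]
      exact Or.inr ⟨by simp, rfl⟩

theorem crossing (hR : IsRing G code P Q) (f : Fin 12 → Fin 2 → Bool)
    (hf : ∀ c : Fin 12, (c.val % 4 = 1 ∨ c.val % 4 = 2) → f c 0 = f c 1)
    (x y : V × Fin 2) (hx : f (code x.1) x.2 = true) (hy : ¬ f (code y.1) y.2 = true)
    (hxy : (prism G).Adj x y) : ∃ n, cross f n = true ∧ s(x, y) = E P Q n := by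
  rw [prism_adj] at hxy
  obtain ⟨u, l⟩ := x
  obtain ⟨v, l'⟩ := y
  simp only at hx hy hxy
  rcases hxy with ⟨hadj, hll⟩ | ⟨hll, huv⟩
  · subst hll
    have hne : code u ≠ code v := by
      intro h
      rw [h] at hx
      exact hy hx
    obtain ⟨i, t, he⟩ := hR.hinter u v hadj hne
    refine ⟨(i, ⟨t.val, by omega⟩, l), ?_, ?_⟩
    · have ht : t.val < 5 := t.isLt
      unfold cross
      rw [dif_pos ht]
      have h1 : code (P i t) = c1 i t := hR.hP i t
      have h2 : code (Q i t) = c2 i t := hR.hQ i t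
      rw [Sym2.eq_iff] at he
      simp only [Fin.eta]
      rcases he with ⟨rfl, rfl⟩ | ⟨rfl, rfl⟩
      · rw [h1] at hx
        rw [h2] at hy
        simp [hx, hy]
      · rw [h2] at hx
        rw [h1] at hy
        simp [hx, hy]
    · have ht : t.val < 5 := t.isLt
      unfold E
      rw [dif_pos ht]
      simp only [Fin.eta]
      rw [Sym2.eq_iff] at he ⊢
      rcases he with ⟨rfl, rfl⟩ | ⟨rfl, rfl⟩
      · exact Or.inl ⟨rfl, rfl⟩
      · exact Or.inr ⟨rfl, rfl⟩
  · subst huv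
    have hl : (l = 0 ∧ l' = 1) ∨ (l = 1 ∧ l' = 0) := by
      have key : ∀ l l' : Fin 2, l ≠ l' → (l = 0 ∧ l' = 1) ∨ (l = 1 ∧ l' = 0) := by decide
      exact key l l' hll
    have hff : f (code u) 0 ≠ f (code u) 1 := by
      rcases hl with ⟨rfl, rfl⟩ | ⟨rfl, rfl⟩
      · intro h
        exact hy (h ▸ hx)
      · intro h
        exact hy (h.symm ▸ hx)
    have hm : (code u).val % 4 = 0 ∨ (code u).val % 4 = 3 := by
      by_contra hcon
      exact hff (hf _ (by omega))
    have hs : s(((u, l) : V × Fin 2), (u, l')) = s((u, 0), (u, 1)) := by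
      rw [Sym2.eq_iff]
      rcases hl with ⟨rfl, rfl⟩ | ⟨rfl, rfl⟩
      · exact Or.inl ⟨rfl, rfl⟩
      · exact Or.inr ⟨rfl, rfl⟩
    rw [hs]
    have hlt : (code u).val < 12 := (code u).isLt
    rcases hm with hm | hm
    · have hc : code u = c1 ⟨(code u).val / 4, by omega⟩ 1 := by
        apply Fin.ext
        show (code u).val = 4 * ((code u).val / 4)
        omega
      have hu : u = P ⟨(code u).val / 4, by omega⟩ 1 :=
        hR.huniq _ _ (by rw [hR.hP, ← hc]) (Or.inl hm)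
      refine ⟨(⟨(code u).val / 4, by omega⟩, 5, 0), ?_, ?_⟩
      · rw [cross_five, ← hc]
        simpa using hff
      · rw [E_five, ← hu]
    · have hc : code u = c1 ⟨(code u).val / 4, by omega⟩ 0 := by
        apply Fin.ext
        show (code u).val = 4 * ((code u).val / 4) + 3
        omega
      have hu : u = P ⟨(code u).val / 4, by omega⟩ 0 :=
        hR.huniq _ _ (by rw [hR.hP, ← hc]) (Or.inr hm)
      refine ⟨(⟨(code u).val / 4, by omega⟩, 6, 0), ?_, ?_⟩
      · rw [cross_six, ← hc]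
        simpa using hff
      · rw [E_six, ← hu]

theorem cut [DecidableEq V] (hR : IsRing G code P Q) {u v : V × Fin 2}
    (p : (prism G).Walk u u)
    (q : (prism G).Walk v v) (hp : p.IsHamiltonianCycle) (hq : q.IsHamiltonianCycle)
    (hpq : ∀ e ∈ (prism G).edgeSet, (e ∈ p.edges ↔ e ∉ q.edges))
    (f : Fin 12 → Fin 2 → Bool) (N : List (Fin 3 × Fin 7 × Fin 2))
    (hf : ∀ c : Fin 12, (c.val % 4 = 1 ∨ c.val % 4 = 2) → f c 0 = f c 1)
    (h1 : ∃ i t l, f (c1 i t) l = true) (h2 : ∃ i t l, f (c1 i t) l = false)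
    (hN : ∀ n, cross f n = true → n.2.1.val < 5 ∨ n.2.2 = 0 → n ∈ N) :
    2 ≤ ((N.map (E P Q)).map (ind p.edges)).sum ∧
      ((N.map (E P Q)).map (ind p.edges)).sum + 2 ≤ (N.map (E P Q)).length := by
  obtain ⟨i, t, l, h1⟩ := h1
  obtain ⟨i', t', l', h2⟩ := h2
  refine bound p q hp hq hpq (fun x => f (code x.1) x.2 = true) (a := (P i t, l))
    (b := (P i' t', l')) (by simpa [hR.hP] using h1) (by simp [hR.hP, h2]) _ ?_ ?_
  · intro e he
    obtain ⟨n, _, rfl⟩ := List.mem_map.mp he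
    exact E_mem hR n
  · intro x y hx hy hxy
    obtain ⟨n, hn, he⟩ := crossing hR f hf x y hx hy hxy
    rw [he]
    by_cases hn5 : n.2.1.val < 5
    · exact List.mem_map_of_mem (hN n hn (Or.inl hn5))
    · -- the layer is irrelevant for vertical edges
      have e1 : E P Q n = E P Q (n.1, n.2.1, 0) := by
        unfold E
        rw [dif_neg hn5, dif_neg hn5]
      have e2 : cross f (n.1, n.2.1, 0) = true := by
        rw [← hn]
        unfold cross
        rw [dif_neg hn5, dif_neg hn5]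
      rw [e1]
      exact List.mem_map_of_mem (hN _ e2 (Or.inr rfl))

/-- A cut of the prism given by the gadget, the part and the layer. -/
def side (g : Fin 4 → Fin 2 → Bool) (i : Fin 3) (c : Fin 12) (l : Fin 2) : Bool :=
  decide (c.val / 4 = i.val) && g ⟨c.val % 4, Nat.mod_lt _ (by norm_num)⟩ l

/-- Checks that the vertex set is proper and nonempty, that it does not cut the inside of a piece,
and that all edges of its boundary are in the list. -/
def OkCut (g : Fin 4 → Fin 2 → Bool) (N : List (Fin 3 × Fin 7 × Fin 2)) (i : Fin 3) : Prop :=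
  (∀ c : Fin 12, (c.val % 4 = 1 ∨ c.val % 4 = 2) → side g i c 0 = side g i c 1) ∧
  (∃ i' t l, side g i (c1 i' t) l = true) ∧ (∃ i' t l, side g i (c1 i' t) l = false) ∧
  (∀ n, cross (side g i) n = true → n.2.1.val < 5 ∨ n.2.2 = 0 → n ∈ N)

instance (g : Fin 4 → Fin 2 → Bool) (N : List (Fin 3 × Fin 7 × Fin 2)) (i : Fin 3) :
    Decidable (OkCut g N i) := by unfold OkCut; exact instDecidableAnd

theorem ok00 : ∀ i : Fin 3, OkCut (fun j l => decide (j = 0) && decide (l = 0))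
    [(i + 2, 0, 0), (i, 5, 0), (i, 1, 0), (i, 2, 0)] i := by decide +kernel

theorem ok01 : ∀ i : Fin 3, OkCut (fun j l => decide (j = 0) && decide (l = 1))
    [(i + 2, 0, 1), (i, 5, 0), (i, 1, 1), (i, 2, 1)] i := by decide +kernel

theorem ok90 : ∀ i : Fin 3, OkCut (fun j l => decide (j = 3) && decide (l = 0))
    [(i, 0, 0), (i, 6, 0), (i, 1, 0), (i, 4, 0)] i := by decide +kernel

theorem ok91 : ∀ i : Fin 3, OkCut (fun j l => decide (j = 3) && decide (l = 1))
    [(i, 0, 1), (i, 6, 0), (i, 1, 1), (i, 4, 1)] i := by decide +kernel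

theorem okd1 : ∀ i : Fin 3, OkCut (fun j _ => decide (j = 1))
    [(i, 2, 0), (i, 2, 1), (i, 3, 0), (i, 3, 1)] i := by decide +kernel

theorem okd2 : ∀ i : Fin 3, OkCut (fun j _ => decide (j = 2))
    [(i, 3, 0), (i, 3, 1), (i, 4, 0), (i, 4, 1)] i := by decide +kernel

theorem okin : ∀ i : Fin 3, OkCut (fun j _ => decide (j = 1) || decide (j = 2))
    [(i, 2, 0), (i, 2, 1), (i, 4, 0), (i, 4, 1)] i := by decide +kernel

theorem okgd : ∀ i : Fin 3, OkCut (fun _ _ => true)
    [(i + 2, 0, 0), (i + 2, 0, 1), (i, 0, 0), (i, 0, 1)] i := by decide +kernel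

theorem oks0 : ∀ i : Fin 3, OkCut
    (fun j l => decide (j = 1) || decide (j = 2) || decide (l = 1))
    [(i + 2, 0, 1), (i, 0, 1), (i, 5, 0), (i, 6, 0), (i, 2, 0), (i, 4, 0)] i := by decide +kernel

theorem oks1 : ∀ i : Fin 3, OkCut
    (fun j l => decide (j = 1) || decide (j = 2) || decide (l = 0))
    [(i + 2, 0, 0), (i, 0, 0), (i, 5, 0), (i, 6, 0), (i, 2, 1), (i, 4, 1)] i := by decide +kernel

/-- What a single gadget forces on the four edges joining it to the rest of the ring. -/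
theorem gadget [DecidableEq V] (hR : IsRing G code P Q) {u v : V × Fin 2}
    (p : (prism G).Walk u u)
    (q : (prism G).Walk v v) (hp : p.IsHamiltonianCycle) (hq : q.IsHamiltonianCycle)
    (hpq : ∀ e ∈ (prism G).edgeSet, (e ∈ p.edges ↔ e ∉ q.edges)) (i : Fin 3) :
    ind p.edges (E P Q (i + 2, 0, 0)) + ind p.edges (E P Q (i + 2, 0, 1))
        + ind p.edges (E P Q (i, 0, 0)) + ind p.edges (E P Q (i, 0, 1)) = 2 ∧
      ¬ (ind p.edges (E P Q (i + 2, 0, 0)) + ind p.edges (E P Q (i + 2, 0, 1)) = 1 ∧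
        ind p.edges (E P Q (i + 2, 0, 0)) = ind p.edges (E P Q (i, 0, 0))) := by
  have B : ∀ (g : Fin 4 → Fin 2 → Bool) (N : List (Fin 3 × Fin 7 × Fin 2)), OkCut g N i →
      2 ≤ ((N.map (E P Q)).map (ind p.edges)).sum ∧
      ((N.map (E P Q)).map (ind p.edges)).sum + 2 ≤ (N.map (E P Q)).length :=
    fun g N h => cut hR p q hp hq hpq (side g i) N h.1 h.2.1 h.2.2.1 h.2.2.2
  have h00 := B _ _ (ok00 i)
  have h01 := B _ _ (ok01 i)
  have h90 := B _ _ (ok90 i)
  have h91 := B _ _ (ok91 i)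
  have hd1 := B _ _ (okd1 i)
  have hd2 := B _ _ (okd2 i)
  have hin := B _ _ (okin i)
  have hgd := B _ _ (okgd i)
  have hs0 := B _ _ (oks0 i)
  have hs1 := B _ _ (oks1 i)
  simp only [List.map_cons, List.map_nil, List.sum_cons, List.sum_nil, List.length_cons,
    List.length_nil] at h00 h01 h90 h91 hd1 hd2 hin hgd hs0 hs1
  have hm : ∀ e, ind p.edges e ≤ 1 := fun e => ind_le p.edges e
  refine ⟨by omega, ?_⟩
  exact arith (ind p.edges (E P Q (i + 2, 0, 0))) (ind p.edges (E P Q (i + 2, 0, 1)))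
    (ind p.edges (E P Q (i, 0, 0))) (ind p.edges (E P Q (i, 0, 1)))
    (ind p.edges (E P Q (i, 5, 0))) (ind p.edges (E P Q (i, 6, 0)))
    (ind p.edges (E P Q (i, 1, 0))) (ind p.edges (E P Q (i, 1, 1)))
    (ind p.edges (E P Q (i, 2, 0))) (ind p.edges (E P Q (i, 2, 1)))
    (ind p.edges (E P Q (i, 4, 0))) (ind p.edges (E P Q (i, 4, 1)))
    (ind p.edges (E P Q (i, 3, 0)) + ind p.edges (E P Q (i, 3, 1)))
    (hm _) (hm _) (hm _) (hm _) (by omega) (by omega) (by omega) (by omega)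
    (by omega) (by omega) (by omega) (by omega) (by omega) (by omega) (by omega) (by omega)

/-- The prism over a ring of three gadgets has no Hamilton decomposition. -/
theorem no_decomposition [DecidableEq V] (hR : IsRing G code P Q) :
    ¬ HasTwoHamiltonDecomposition (prism G) := by
  rintro ⟨u, v, p, q, hp, hq, hpq⟩
  have g0 := gadget hR p q hp hq hpq 0
  have g1 := gadget hR p q hp hq hpq 1
  have g2 := gadget hR p q hp hq hpq 2
  rw [show (0 : Fin 3) + 2 = 2 from rfl] at g0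
  rw [show (1 : Fin 3) + 2 = 0 from rfl] at g1
  rw [show (2 : Fin 3) + 2 = 1 from rfl] at g2
  have b1 := ind_le p.edges (E P Q (0, 0, 0))
  have b2 := ind_le p.edges (E P Q (0, 0, 1))
  have b3 := ind_le p.edges (E P Q (1, 0, 0))
  have b4 := ind_le p.edges (E P Q (1, 0, 1))
  have b5 := ind_le p.edges (E P Q (2, 0, 0))
  have b6 := ind_le p.edges (E P Q (2, 0, 1))
  omega

/-! ### The graphs -/

/-- The other ends of the chords at the vertices `0, ..., 24` (except `20`). -/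
def tabT : List ℕ :=
  [9, 3, 4, 1, 2, 7, 8, 5, 6, 0, 19, 13, 14, 11, 12, 17, 18, 15, 16, 10, 0, 23, 24, 21, 22]

/-- The parts of the vertices `0, ..., 24`. -/
def tabC : List ℕ :=
  [0, 1, 1, 1, 1, 2, 2, 2, 2, 3, 4, 5, 5, 5, 5, 6, 6, 6, 6, 7, 8, 9, 9, 9, 9]

/-- The other end of the chord at `x`. -/
def tau (j x : ℕ) : ℕ :=
  if x = 20 then 29 + 2 * j else if x < 25 then tabT.getD x 0
  else if x < 27 + j then x + 2 + j else if x < 29 + 2 * j then x - 2 - j else 20

theorem tabT_spec : ∀ x < 25, x ≠ 20 → tabT.getD x 0 < 25 ∧ tabT.getD x 0 ≠ 20 ∧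
    tabT.getD (tabT.getD x 0) 0 = x ∧ tabT.getD x 0 ≠ x + 1 ∧ tabT.getD x 0 + 1 ≠ x ∧
    (tabC.getD x 0 = tabC.getD (tabT.getD x 0) 0 ∨ (x = 0 ∧ tabT.getD x 0 = 9) ∨
      (x = 9 ∧ tabT.getD x 0 = 0) ∨ (x = 10 ∧ tabT.getD x 0 = 19) ∨
      (x = 19 ∧ tabT.getD x 0 = 10)) := by
  decide

theorem tabT_ne : ∀ x < 25, x ≠ 20 → tabT.getD x 0 ≠ x := by decide

theorem tabC_succ : ∀ x < 24, tabC.getD x 0 = tabC.getD (x + 1) 0 ∨ x = 0 ∨ x = 4 ∨ x = 8 ∨
    x = 9 ∨ x = 10 ∨ x = 14 ∨ x = 18 ∨ x = 19 ∨ x = 20 := by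
  decide

theorem tau_20 (j : ℕ) : tau j 20 = 29 + 2 * j := rfl

theorem tau_small (j x : ℕ) (h : x < 25) (h' : x ≠ 20) : tau j x = tabT.getD x 0 := by
  unfold tau
  rw [if_neg h', if_pos h]

theorem tau_mid (j x : ℕ) (h : 25 ≤ x) (h' : x < 27 + j) : tau j x = x + 2 + j := by
  unfold tau
  rw [if_neg (by omega), if_neg (by omega), if_pos h']

theorem tau_up (j x : ℕ) (h : 27 + j ≤ x) (h' : x < 29 + 2 * j) : tau j x = x - 2 - j := by
  unfold tau
  rw [if_neg (by omega), if_neg (by omega), if_neg (by omega), if_pos h']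

theorem tau_last (j : ℕ) : tau j (29 + 2 * j) = 20 := by
  unfold tau
  rw [if_neg (by omega), if_neg (by omega), if_neg (by omega), if_neg (by omega)]

theorem five_cases (j x : ℕ) (hx : x < 30 + 2 * j) : x = 20 ∨ (x < 25 ∧ x ≠ 20) ∨
    (25 ≤ x ∧ x < 27 + j) ∨ (27 + j ≤ x ∧ x < 29 + 2 * j) ∨ x = 29 + 2 * j := by
  omega

/-- The properties of the involution `tau`. -/
theorem tau_spec (j x : ℕ) (hx : x < 30 + 2 * j) :
    tau j x < 30 + 2 * j ∧ tau j (tau j x) = x ∧ tau j x ≠ x + 1 ∧ tau j x + 1 ≠ x ∧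
      ¬ (x = 29 + 2 * j ∧ tau j x = 0) ∧ ¬ (x = 0 ∧ tau j x = 29 + 2 * j) ∧ tau j x ≠ x := by
  rcases five_cases j x hx with rfl | ⟨h, h'⟩ | ⟨h, h'⟩ | ⟨h, h'⟩ | rfl
  · rw [tau_20, tau_last]
    omega
  · obtain ⟨e1, e2, e3, e4, e5, _⟩ := tabT_spec x h h'
    rw [tau_small j x h h', tau_small j _ e1 e2, e3]
    exact ⟨by omega, rfl, e4, e5, by omega, by omega, tabT_ne x h h'⟩
  · rw [tau_mid j x h h', tau_up j (x + 2 + j) (by omega) (by omega)]
    omega
  · rw [tau_up j x h h', tau_mid j (x - 2 - j) (by omega) (by omega)]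
    omega
  · rw [tau_last, tau_20]
    omega

/-- One orientation of the edges: the Hamilton cycle `0, 1, ..., 29 + 2 j` and the chords. -/
def arc (j x y : ℕ) : Prop := y = x + 1 ∨ (x = 29 + 2 * j ∧ y = 0) ∨ y = tau j x

/-- The graph on `30 + 2 j` vertices. -/
def graph (j : ℕ) : SimpleGraph (Fin (30 + 2 * j)) where
  Adj x y := arc j x.val y.val ∨ arc j y.val x.val
  symm := ⟨fun _ _ h => h.symm⟩
  loopless := ⟨by
    intro x h
    have hx := x.isLt
    have ht := (tau_spec j x.val x.isLt).2.2.2.2.2.2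
    unfold arc at h
    omega⟩

theorem graph_adj (j : ℕ) (x y : Fin (30 + 2 * j)) :
    (graph j).Adj x y ↔ arc j x.val y.val ∨ arc j y.val x.val := Iff.rfl

theorem adj_iff (j x y : ℕ) (hx : x < 30 + 2 * j) (hy : y < 30 + 2 * j) :
    (arc j x y ∨ arc j y x) ↔ ((y = x + 1 ∨ (x = 29 + 2 * j ∧ y = 0)) ∨
      (x = y + 1 ∨ (y = 29 + 2 * j ∧ x = 0)) ∨ y = tau j x) := by
  have h1 := (tau_spec j x hx).2.1
  have h2 := (tau_spec j y hy).2.1
  unfold arc
  constructor
  · rintro ((h | h | h) | (h | h | h))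
    · exact Or.inl (Or.inl h)
    · exact Or.inl (Or.inr h)
    · exact Or.inr (Or.inr h)
    · exact Or.inr (Or.inl (Or.inl h))
    · exact Or.inr (Or.inl (Or.inr h))
    · right; right
      rw [h, h2]
  · rintro ((h | h) | (h | h) | h)
    · exact Or.inl (Or.inl h)
    · exact Or.inl (Or.inr (Or.inl h))
    · exact Or.inr (Or.inl h)
    · exact Or.inr (Or.inr (Or.inl h))
    · exact Or.inl (Or.inr (Or.inr h))

/-- The next vertex on the Hamilton cycle. -/
def nxt (j x : ℕ) : ℕ := if x = 29 + 2 * j then 0 else x + 1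

/-- The previous vertex on the Hamilton cycle. -/
def prv (j x : ℕ) : ℕ := if x = 0 then 29 + 2 * j else x - 1

theorem nxt_spec (j x y : ℕ) (hy : y < 30 + 2 * j) :
    y = nxt j x ↔ (y = x + 1 ∨ (x = 29 + 2 * j ∧ y = 0)) := by
  unfold nxt
  split_ifs <;> omega

theorem prv_spec (j x y : ℕ) (hy : y < 30 + 2 * j) :
    y = prv j x ↔ (x = y + 1 ∨ (y = 29 + 2 * j ∧ x = 0)) := by
  unfold prv
  split_ifs <;> omega

theorem nxt_lt (j x : ℕ) (hx : x < 30 + 2 * j) : nxt j x < 30 + 2 * j := by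
  unfold nxt
  split_ifs <;> omega

theorem prv_lt (j x : ℕ) (hx : x < 30 + 2 * j) : prv j x < 30 + 2 * j := by
  unfold prv
  split_ifs <;> omega

theorem nxt_ne_prv (j x : ℕ) : nxt j x ≠ prv j x := by
  unfold nxt prv
  split_ifs <;> omega

theorem cubic (j : ℕ) (v : Fin (30 + 2 * j)) : ((graph j).neighborSet v).ncard = 3 := by
  obtain ⟨x, hx⟩ := v
  have hs := nxt_lt j x hx
  have hp := prv_lt j x hx
  obtain ⟨ht, _, n1, n2, n3, n4, _⟩ := tau_spec j x hx
  have hset : (graph j).neighborSet ⟨x, hx⟩ =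
      {(⟨nxt j x, hs⟩ : Fin (30 + 2 * j)), ⟨prv j x, hp⟩, ⟨tau j x, ht⟩} := by
    ext ⟨y, hy⟩
    rw [SimpleGraph.mem_neighborSet, graph_adj]
    simp only [Set.mem_insert_iff, Set.mem_singleton_iff, Fin.mk.injEq]
    rw [adj_iff j x y hx hy, nxt_spec j x y hy, prv_spec j x y hy]
  rw [hset, Set.ncard_eq_three]
  refine ⟨_, _, _, ?_, ?_, ?_, rfl⟩
  · intro h
    exact nxt_ne_prv j x (congrArg Fin.val h)
  · intro h
    have h2 : nxt j x = tau j x := congrArg Fin.val h
    have := (nxt_spec j x (tau j x) ht).mp h2.symm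
    omega
  · intro h
    have h2 : prv j x = tau j x := congrArg Fin.val h
    have := (prv_spec j x (tau j x) ht).mp h2.symm
    omega

theorem hamiltonian (j : ℕ) :
    ∃ (a : Fin (30 + 2 * j)) (p : (graph j).Walk a a), p.IsHamiltonianCycle := by
  have hle : cycleGraph (30 + 2 * j) ≤ graph j := by
    intro u v h
    rw [cycleGraph_adj'] at h
    rw [graph_adj]
    have hsub : ∀ a b : Fin (30 + 2 * j), (a - b).val = 1 →
        a.val = b.val + 1 ∨ (b.val = 29 + 2 * j ∧ a.val = 0) := by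
      intro a b hab
      have ha := a.isLt
      have hb := b.isLt
      by_cases hba : b ≤ a
      · rw [Fin.sub_val_of_le hba] at hab
        left
        have : b.val ≤ a.val := hba
        omega
      · have hlt : a.val < b.val := by
          rw [not_le] at hba
          exact hba
        rw [Fin.val_sub, Nat.mod_eq_of_lt (by omega)] at hab
        right
        omega
    unfold arc
    rcases h with h | h
    · rcases hsub u v h with h | h
      · exact Or.inr (Or.inl h)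
      · exact Or.inr (Or.inr (Or.inl h))
    · rcases hsub v u h with h | h
      · exact Or.inl (Or.inl h)
      · exact Or.inl (Or.inr (Or.inl h))
  obtain ⟨a, p, hp, hl⟩ := (cycleGraph_isContained_iff (by omega)).mp (IsContained.of_le hle)
  refine ⟨a, p, ?_⟩
  rw [Walk.isHamiltonianCycle_iff_isCycle_and_length_eq]
  exact ⟨hp, by rw [hl, Fintype.card_fin]⟩

/-- The part of a vertex. -/
def codeN (j x : ℕ) : ℕ :=
  if x < 25 then tabC.getD x 0 else if x ≤ 28 + 2 * j then 10 else 11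

theorem code_small (j x : ℕ) (h : x < 25) : codeN j x = tabC.getD x 0 := by
  unfold codeN
  rw [if_pos h]

theorem code_mid (j x : ℕ) (h : 25 ≤ x) (h' : x ≤ 28 + 2 * j) : codeN j x = 10 := by
  unfold codeN
  rw [if_neg (by omega), if_pos h']

theorem code_last (j : ℕ) : codeN j (29 + 2 * j) = 11 := by
  unfold codeN
  rw [if_neg (by omega), if_neg (by omega)]

theorem tabC_lt : ∀ x < 25, tabC.getD x 0 < 10 := by decide

theorem codeN_lt (j x : ℕ) : codeN j x < 12 := by
  unfold codeN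
  split_ifs with h
  · have := tabC_lt x h
    omega
  · omega
  · omega

/-- The first ends of the edges between the parts. -/
def PN (j : ℕ) (i : Fin 3) (t : Fin 5) : ℕ :=
  match i, t with
  | 0, 0 => 9
  | 0, 1 => 0
  | 0, 2 => 0
  | 0, 3 => 4
  | 0, 4 => 8
  | 1, 0 => 19
  | 1, 1 => 10
  | 1, 2 => 10
  | 1, 3 => 14
  | 1, 4 => 18
  | 2, 0 => 29 + 2 * j
  | 2, 1 => 20
  | 2, 2 => 20
  | 2, 3 => 24
  | 2, 4 => 28 + 2 * j

/-- The second ends of the edges between the parts. -/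
def QN (j : ℕ) (i : Fin 3) (t : Fin 5) : ℕ :=
  match i, t with
  | 0, 0 => 10
  | 0, 1 => 9
  | 0, 2 => 1
  | 0, 3 => 5
  | 0, 4 => 9
  | 1, 0 => 20
  | 1, 1 => 19
  | 1, 2 => 11
  | 1, 3 => 15
  | 1, 4 => 19
  | 2, 0 => 0
  | 2, 1 => 29 + 2 * j
  | 2, 2 => 21
  | 2, 3 => 25
  | 2, 4 => 29 + 2 * j

theorem PN_lt (j : ℕ) (i : Fin 3) (t : Fin 5) : PN j i t < 30 + 2 * j := by
  unfold PN
  split <;> omega

theorem QN_lt (j : ℕ) (i : Fin 3) (t : Fin 5) : QN j i t < 30 + 2 * j := by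
  unfold QN
  split <;> omega

theorem codePN (j : ℕ) (i : Fin 3) (t : Fin 5) : codeN j (PN j i t) = (c1 i t).val := by
  unfold PN
  split
  all_goals first
    | rfl
    | (rw [code_last]; rfl)
    | (rw [code_mid j _ (by omega) (by omega)]; rfl)

theorem codeQN (j : ℕ) (i : Fin 3) (t : Fin 5) : codeN j (QN j i t) = (c2 i t).val := by
  unfold QN
  split
  all_goals first
    | rfl
    | (rw [code_last]; rfl)
    | (rw [code_mid j _ (by omega) (by omega)]; rfl)

theorem arcPQ (j : ℕ) (i : Fin 3) (t : Fin 5) : arc j (PN j i t) (QN j i t) := by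
  unfold PN QN arc
  split
  all_goals first
    | (left; rfl)
    | (right; right; rfl)
    | (right; left; exact ⟨rfl, rfl⟩)
    | (left; show 29 + 2 * j = 28 + 2 * j + 1; omega)

theorem interPQ (j x y : ℕ) (hx : x < 30 + 2 * j) (hy : y < 30 + 2 * j) (h : arc j x y)
    (hne : codeN j x ≠ codeN j y) :
    ∃ i t, (x = PN j i t ∧ y = QN j i t) ∨ (x = QN j i t ∧ y = PN j i t) := by
  rcases h with h | h | h
  · subst h
    by_cases h24 : x < 24
    · rw [code_small j x (by omega), code_small j (x + 1) (by omega)] at hne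
      rcases tabC_succ x h24 with h | h | h | h | h | h | h | h | h | h
      · exact absurd h hne
      · exact ⟨0, 2, Or.inl ⟨h, by rw [h]; rfl⟩⟩
      · exact ⟨0, 3, Or.inl ⟨h, by rw [h]; rfl⟩⟩
      · exact ⟨0, 4, Or.inl ⟨h, by rw [h]; rfl⟩⟩
      · exact ⟨0, 0, Or.inl ⟨h, by rw [h]; rfl⟩⟩
      · exact ⟨1, 2, Or.inl ⟨h, by rw [h]; rfl⟩⟩
      · exact ⟨1, 3, Or.inl ⟨h, by rw [h]; rfl⟩⟩
      · exact ⟨1, 4, Or.inl ⟨h, by rw [h]; rfl⟩⟩
      · exact ⟨1, 0, Or.inl ⟨h, by rw [h]; rfl⟩⟩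
      · exact ⟨2, 2, Or.inl ⟨h, by rw [h]; rfl⟩⟩
    · by_cases he : x = 24
      · exact ⟨2, 3, Or.inl ⟨he, by rw [he]; rfl⟩⟩
      · have hx28 : x = 28 + 2 * j := by
          by_contra hcon
          apply hne
          rw [code_mid j x (by omega) (by omega), code_mid j (x + 1) (by omega) (by omega)]
        refine ⟨2, 4, Or.inl ⟨hx28, ?_⟩⟩
        show x + 1 = 29 + 2 * j
        omega
  · exact ⟨2, 0, Or.inl h⟩
  · subst h
    rcases five_cases j x hx with h | ⟨h, h'⟩ | ⟨h, h'⟩ | ⟨h, h'⟩ | h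
    · exact ⟨2, 1, Or.inl ⟨h, by rw [h]; rfl⟩⟩
    · obtain ⟨e1, _, _, _, _, e6⟩ := tabT_spec x h h'
      rw [code_small j x h, tau_small j x h h', code_small j _ e1] at hne
      rw [tau_small j x h h']
      rcases e6 with h | h | h | h | h
      · exact absurd h hne
      · exact ⟨0, 1, Or.inl h⟩
      · exact ⟨0, 1, Or.inr h⟩
      · exact ⟨1, 1, Or.inl h⟩
      · exact ⟨1, 1, Or.inr h⟩
    · exfalso
      apply hne
      rw [tau_mid j x h h', code_mid j x (by omega) (by omega),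
        code_mid j _ (by omega) (by omega)]
    · exfalso
      apply hne
      rw [tau_up j x h h', code_mid j x (by omega) (by omega),
        code_mid j _ (by omega) (by omega)]
    · exact ⟨2, 1, Or.inr ⟨h, by rw [h, tau_last]; rfl⟩⟩

theorem tabC_uniq : ∀ x < 25, ∀ y < 25, tabC.getD x 0 = tabC.getD y 0 →
    (tabC.getD x 0 % 4 = 0 ∨ tabC.getD x 0 % 4 = 3) → x = y := by decide +kernel

theorem uniqPQ (j x y : ℕ) (hx : x < 30 + 2 * j) (hy : y < 30 + 2 * j)
    (h : codeN j x = codeN j y) (hm : codeN j x % 4 = 0 ∨ codeN j x % 4 = 3) : x = y := by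
  by_cases hx1 : x < 25
  · have hc := tabC_lt x hx1
    rw [code_small j x hx1] at h hm
    by_cases hy1 : y < 25
    · rw [code_small j y hy1] at h
      exact tabC_uniq x hx1 y hy1 h hm
    · exfalso
      unfold codeN at h
      rw [if_neg hy1] at h
      split_ifs at h <;> omega
  · by_cases hx2 : x ≤ 28 + 2 * j
    · rw [code_mid j x (by omega) hx2] at hm
      omega
    · have hx3 : x = 29 + 2 * j := by omega
      rw [hx3, code_last] at h
      by_cases hy1 : y < 25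
      · have hc := tabC_lt y hy1
        rw [code_small j y hy1] at h
        omega
      · by_cases hy2 : y ≤ 28 + 2 * j
        · rw [code_mid j y (by omega) hy2] at h
          omega
        · omega

theorem ring (j : ℕ) : IsRing (graph j) (fun x => ⟨codeN j x.val, codeN_lt j x.val⟩)
    (fun i t => ⟨PN j i t, PN_lt j i t⟩) (fun i t => ⟨QN j i t, QN_lt j i t⟩) where
  hP i t := Fin.ext (codePN j i t)
  hQ i t := Fin.ext (codeQN j i t)
  hadj i t := Or.inl (arcPQ j i t)
  hinter u v h hne := by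
    have hne' : codeN j u.val ≠ codeN j v.val := fun h => hne (Fin.ext h)
    have key : ∃ i t, (u.val = PN j i t ∧ v.val = QN j i t) ∨
        (u.val = QN j i t ∧ v.val = PN j i t) := by
      rcases h with h | h
      · exact interPQ j _ _ u.isLt v.isLt h hne'
      · obtain ⟨i, t, h1⟩ := interPQ j _ _ v.isLt u.isLt h hne'.symm
        exact ⟨i, t, h1.symm.imp And.symm And.symm⟩
    obtain ⟨i, t, h1⟩ := key
    refine ⟨i, t, ?_⟩
    rw [Sym2.eq_iff]
    exact h1.imp (fun h => ⟨Fin.ext h.1, Fin.ext h.2⟩) (fun h => ⟨Fin.ext h.1, Fin.ext h.2⟩)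
  huniq u v h hm := Fin.ext (uniqPQ j _ _ u.isLt v.isLt (congrArg Fin.val h) hm)

/-- For every even `n ≥ 30` there is a hamiltonian cubic graph on `n` vertices whose prism has no
Hamilton decomposition. -/
theorem result (n : ℕ) (hn : 30 ≤ n) (he : Even n) :
    ∃ G : SimpleGraph (Fin n), (∀ v, (G.neighborSet v).ncard = 3) ∧
      (∃ (a : Fin n) (p : G.Walk a a), p.IsHamiltonianCycle) ∧
      ¬ HasTwoHamiltonDecomposition (prism G) := by
  obtain ⟨m, hm⟩ := he
  obtain ⟨j, rfl⟩ : ∃ j, n = 30 + 2 * j := ⟨m - 15, by omega⟩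
  exact ⟨graph j, cubic j, hamiltonian j, no_decomposition (ring j)⟩

end Pool.Agent.Results.MP_3efdf8_co.EvenOrders
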